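import Pool.Agent.N493.NRUnif

/-!
# Near relations between `1`, `t` and `ξ` at all scales of an interval, `t` of finite irrationality
# exponent

The proof follows `Pool/Agent/N493/NRLocal.lean` (helper493), where `t` has irrationality exponent
two.
-/

set_option autoImplicit false

namespace Pool.Agent.N909.NR

open Filter Topology Pool.Agent.N493.NR

/-- the measure of irrationality for a fraction which is not reduced -/
lemma ratio (t c ω : ℝ) (hω : 0 < ω) (hc : ∀ Q : ℕ, 1 ≤ Q → ∀ m : ℤ,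
    c ≤ (Q : ℝ) ^ ω * |Q * t - m|) (a b a' b' : ℤ) (ha : a ≠ 0) (ha' : a' ≠ 0)
    (h : b * a' = b' * a) : c ≤ |(a : ℝ)| ^ ω * |(a' : ℝ) * t - b'| := by
  obtain ⟨g, d, n, hg, hcop, h1, h2⟩ : ∃ g d n : ℤ, g ≠ 0 ∧ IsCoprime d n ∧ a = d * g ∧ b = n * g := by
    have hg : 0 < Int.gcd a b := Int.gcd_pos_of_ne_zero_left _ ha
    obtain ⟨d, n, h1, h2, h3⟩ := Int.exists_gcd_one hg
    exact ⟨Int.gcd a b, d, n, by exact_mod_cast hg.ne', Int.isCoprime_iff_gcd_eq_one.2 h1, h2, h3⟩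
  have hd : d ≠ 0 := by rintro rfl; apply ha; rw [h1]; ring
  have h3 : n * a' = b' * d := by
    have : g * (n * a') = g * (b' * d) := by
      rw [h1, h2] at h
      linear_combination h
    exact mul_left_cancel₀ hg this
  have h4 : d ∣ a' := by
    apply hcop.dvd_of_dvd_mul_left
    exact ⟨b', by linarith⟩
  obtain ⟨m, hm⟩ := h4
  have hm0 : m ≠ 0 := by rintro rfl; apply ha'; rw [hm]; ring
  have h5 : b' = n * m := by
    have : d * b' = d * (n * m) := by
      rw [hm] at h3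
      linear_combination -h3
    exact mul_left_cancel₀ hd this
  obtain ⟨k, hk⟩ : ∃ k : ℤ, |(d.natAbs : ℝ) * t - k| = |(d : ℝ) * t - n| := by
    have hn : (d.natAbs : ℝ) = |(d : ℝ)| := by
      rw [Nat.cast_natAbs, Int.cast_abs]
    rcases abs_cases (d : ℝ) with ⟨h1, _⟩ | ⟨h1, _⟩
    · exact ⟨n, by rw [hn, h1]⟩
    · refine ⟨-n, ?_⟩
      rw [hn, h1, ← abs_neg]
      congr 1
      push_cast
      ring
  have h6 := hc d.natAbs (Int.natAbs_pos.2 hd) k
  rw [hk] at h6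
  have h7 : (d.natAbs : ℝ) ≤ |(a : ℝ)| := by
    rw [Nat.cast_natAbs, Int.cast_abs, h1]
    push_cast
    rw [abs_mul]
    have : (1 : ℝ) ≤ |(g : ℝ)| := by
      have : 1 ≤ |g| := Int.one_le_abs hg
      exact_mod_cast this
    exact le_mul_of_one_le_right (abs_nonneg _) this
  have h8 : |(d : ℝ) * t - n| ≤ |(a' : ℝ) * t - b'| := by
    have e : (a' : ℝ) * t - b' = m * (d * t - n) := by
      rw [hm, h5]; push_cast; ring
    rw [e, abs_mul]
    have : (1 : ℝ) ≤ |(m : ℝ)| := by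
      have : 1 ≤ |m| := Int.one_le_abs hm0
      exact_mod_cast this
    exact le_mul_of_one_le_left (abs_nonneg _) this
  exact h6.trans (mul_le_mul (Real.rpow_le_rpow (Nat.cast_nonneg _) h7 hω.le) h8
    (abs_nonneg _) (by positivity))

/-- near relations at all scales of an interval come from one near relation of small height -/
theorem local_gen (t ω c : ℝ) (hω : 0 < ω) (hc0 : 0 < c) (hc : ∀ Q : ℕ, 1 ≤ Q → ∀ m : ℤ,
    c ≤ (Q : ℝ) ^ ω * |Q * t - m|) (w κ : ℝ) (hw : ω < (w - 1) * (w - 1 - ω)) (hw1 : 1 < w)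
    (hκ1 : 1 ≤ κ) (hκ : ω < κ * (w - 1 - ω)) :
    ∃ Y0 : ℝ, 1 ≤ Y0 ∧ ∀ ξ Y Z : ℝ, Y0 ≤ Y → Y ≤ Z →
      (∀ X : ℝ, Y ≤ X → X ≤ Z →
        ∃ v : ℤ × ℤ × ℤ, v ≠ 0 ∧ (ht v : ℝ) ≤ X ∧ |L t ξ v| ≤ X ^ (-w)) →
      ∃ v : ℤ × ℤ × ℤ, v ≠ 0 ∧ (ht v : ℝ) ≤ Y ^ κ ∧ |L t ξ v| ≤ Z ^ (-w) := by
  have hκ0 : 0 < κ := by linarith
  obtain ⟨δ, hδ⟩ : ∃ δ : ℝ, δ = w - 1 - ω := ⟨_, rfl⟩
  -- the three gains
  obtain ⟨γ1, hγ1⟩ : ∃ γ : ℝ, γ = (w - 1) * δ - ω := ⟨_, rfl⟩
  have hγ10 : 0 < γ1 := by rw [hγ1, hδ]; linarith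
  have hδ0 : 0 < δ := by
    by_contra hlt
    push Not at hlt
    have h1 : (w - 1) * δ ≤ 0 := mul_nonpos_of_nonneg_of_nonpos (by linarith) hlt
    rw [hγ1] at hγ10
    linarith
  obtain ⟨γ2, hγ2⟩ : ∃ γ : ℝ, γ = κ * δ - ω := ⟨_, rfl⟩
  have hγ20 : 0 < γ2 := by rw [hγ2, hδ]; linarith
  obtain ⟨γ3, hγ3⟩ : ∃ γ : ℝ, γ = κ * (w - 1) - (1 + κ) * ω := ⟨_, rfl⟩
  have hγ30 : 0 < γ3 := by rw [hγ3]; nlinarith
  obtain ⟨K, hK⟩ : ∃ K : ℝ, K = (2 : ℝ) ^ w := ⟨_, rfl⟩
  have hK0 : 0 < K := by rw [hK]; positivity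
  -- constants
  obtain ⟨A1, hA1⟩ : ∃ A1 : ℝ, A1 = |Real.log (2 ^ ω * (2 * K)) - Real.log c| := ⟨_, rfl⟩
  obtain ⟨A2, hA2⟩ : ∃ A2 : ℝ, A2 = |Real.log (6 * K)| := ⟨_, rfl⟩
  have hA10 : 0 ≤ A1 := by rw [hA1]; exact abs_nonneg _
  have hA20 : 0 ≤ A2 := by rw [hA2]; exact abs_nonneg _
  obtain ⟨B, hB⟩ : ∃ B : ℝ, B = (A1 + δ * A2) / γ1 + A1 / γ2 + A1 / γ3 + 2 := ⟨_, rfl⟩
  have htail : Tendsto (fun x : ℝ => 2 * K * x ^ (1 - w)) atTop (𝓝 0) := by
    have h1 := (tendsto_rpow_neg_atTop (show (0 : ℝ) < w - 1 by linarith)).const_mul (2 * K)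
    rw [mul_zero] at h1
    refine h1.congr fun x => ?_
    congr 2
    ring
  obtain ⟨B2, hB2⟩ := eventually_atTop.1 (htail.eventually_lt_const one_pos)
  refine ⟨max (max (2 * Real.exp B) B2) 2, (by norm_num : (1 : ℝ) ≤ 2).trans (le_max_right _ _), ?_⟩
  intro ξ Y Z hY hYZ hU
  have hY2 : 2 ≤ Y := (le_max_right _ _).trans hY
  have hYB : 2 * Real.exp B ≤ Y := ((le_max_left _ _).trans (le_max_left _ _)).trans hY
  have hYB2 : B2 ≤ Y := ((le_max_right _ _).trans (le_max_left _ _)).trans hY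
  have hY0 : 0 < Y := by linarith
  have hYκ : Y ≤ Y ^ κ := by
    nth_rewrite 1 [← Real.rpow_one Y]
    exact Real.rpow_le_rpow_of_exponent_le (by linarith) hκ1
  by_contra hI
  push Not at hI
  choose V hV0 hVh hVmin using exists_min t ξ
  obtain ⟨g, hg⟩ : ∃ g : ℕ → ℝ, g = fun N => |L t ξ (V N)| := ⟨_, rfl⟩
  have hganti : ∀ M N, M ≤ N → g N ≤ g M := by
    intro M N hMN
    rw [hg]
    exact hVmin N (V M) (hV0 M) ((hVh M).trans hMN)
  have hgU : ∀ (N : ℕ) (X : ℝ), Y ≤ X → X ≤ Z → X < N + 1 → g N ≤ X ^ (-w) := by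
    intro N X hX1 hX2 hX3
    obtain ⟨v, hv0, hv1, hv2⟩ := hU X hX1 hX2
    have : ht v ≤ N := by
      have h1 : (ht v : ℝ) < N + 1 := hv1.trans_lt hX3
      have h2 : ht v < N + 1 := by exact_mod_cast h1
      omega
    rw [hg]
    exact (hVmin N v hv0 this).trans hv2
  have hgZ : ∀ N : ℕ, (N : ℝ) ≤ Y ^ κ → Z ^ (-w) < g N := by
    intro N hN
    rw [hg]
    exact hI _ (hV0 N) ((by exact_mod_cast hVh N : (ht (V N) : ℝ) ≤ N).trans hN)
  have hZκ : Y ^ κ < Z := by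
    by_contra hlt
    push Not at hlt
    have h1 := hgZ ⌊Z⌋₊ ((Nat.floor_le (by linarith)).trans hlt)
    have h2 := hgU ⌊Z⌋₊ Z hYZ le_rfl (Nat.lt_floor_add_one _)
    linarith
  have hnext : ∀ N : ℕ, (N : ℝ) ≤ Y ^ κ → ∃ M : ℕ, N < M ∧ (M : ℝ) ≤ Z ∧ g M < g N := by
    intro N hN
    have h1 := hgU ⌊Z⌋₊ Z hYZ le_rfl (Nat.lt_floor_add_one _)
    have h2 := h1.trans_lt (hgZ N hN)
    refine ⟨⌊Z⌋₊, ?_, Nat.floor_le (by linarith), h2⟩
    by_contra hlt
    push Not at hlt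
    exact absurd (hganti _ _ hlt) (not_le.2 h2)
  obtain ⟨nx, hnx⟩ : ∃ nx : ℕ → ℕ, ∀ N : ℕ, (N : ℝ) ≤ Y ^ κ → N < nx N ∧ (nx N : ℝ) ≤ Z ∧
      g (nx N) < g N ∧ ∀ M, M < nx N → g N ≤ g M := by
    classical
    have hex : ∀ N : ℕ, ∃ K' : ℕ, (N : ℝ) ≤ Y ^ κ → N < K' ∧ (K' : ℝ) ≤ Z ∧
      g K' < g N ∧ ∀ M, M < K' → g N ≤ g M := by
      intro N
      by_cases hN : (N : ℝ) ≤ Y ^ κ
      · have hN' := hnext N hN
        refine ⟨Nat.find hN', fun _ => ⟨(Nat.find_spec hN').1, (Nat.find_spec hN').2.1,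
          (Nat.find_spec hN').2.2, fun M hM => ?_⟩⟩
        by_cases hMN : M ≤ N
        · exact hganti M N hMN
        · have := Nat.find_min hN' hM
          push Not at this
          have h1 : (M : ℝ) ≤ Z :=
            (by exact_mod_cast hM.le : (M : ℝ) ≤ (Nat.find hN' : ℕ)).trans (Nat.find_spec hN').2.1
          exact this (by omega) h1
      · exact ⟨0, fun h => absurd h hN⟩
    choose nx hnx using hex
    exact ⟨nx, hnx⟩
  obtain ⟨n, hn0, hns⟩ : ∃ n : ℕ → ℕ, n 0 = ⌊Y⌋₊ ∧ ∀ k, n (k + 1) = nx (n k) :=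
    ⟨fun k => Nat.rec ⌊Y⌋₊ (fun _ x => nx x) k, rfl, fun k => rfl⟩
  obtain ⟨x, hx⟩ : ∃ x : ℕ → ℝ, x = fun k => (n k : ℝ) := ⟨_, rfl⟩
  have hxn : ∀ k, x k = (n k : ℝ) := fun k => by rw [hx]
  obtain ⟨v, hv⟩ : ∃ v : ℕ → ℤ × ℤ × ℤ, v = fun k => V (n k) := ⟨_, rfl⟩
  have hvn : ∀ k, v k = V (n k) := fun k => by rw [hv]
  have hx0Y : x 0 ≤ Y := by rw [hxn, hn0]; exact Nat.floor_le hY0.le
  have hx0Y' : Y < x 0 + 1 := by rw [hxn, hn0]; exact Nat.lt_floor_add_one _
  have hvx : ∀ k, (ht (v k) : ℝ) ≤ x k := fun k => by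
    rw [hvn, hxn]; exact_mod_cast hVh (n k)
  have hvg : ∀ k, |L t ξ (v k)| = g (n k) := fun k => by rw [hvn, hg]
  -- one step
  have hstep : ∀ k, (n k : ℝ) ≤ Y ^ κ → n k < n (k + 1) ∧ (n (k + 1) : ℝ) ≤ Z ∧
      |L t ξ (v (k + 1))| < |L t ξ (v k)| ∧ ∀ M, M < n (k + 1) → g (n k) ≤ g M := by
    intro k hk
    rw [hvg, hvg, hns]
    exact hnx (n k) hk
  -- the induction statement: everything up to `k` is below `Y ^ κ`
  obtain ⟨Pre, hPre⟩ : ∃ Pre : ℕ → Prop, Pre = fun k => ∀ i, i ≤ k → (n i : ℝ) ≤ Y ^ κ := ⟨_, rfl⟩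
  have hmono : ∀ k, Pre k → ∀ i j, i ≤ j → j ≤ k + 1 → x i ≤ x j := by
    intro k hk i j hij
    rw [hPre] at hk
    induction j, hij using Nat.le_induction with
    | base => intro _; exact le_rfl
    | succ j hij ih =>
      intro hj
      refine (ih (by omega)).trans ?_
      rw [hxn, hxn]
      exact_mod_cast (hstep j (hk j (by omega))).1.le
  have hxY : ∀ k, Pre k → Y < x (k + 1) := by
    intro k hk
    have h1 := hmono k hk 1 (k + 1) (by omega) le_rfl
    have h2 : n 0 < n 1 := (hstep 0 (by rw [hPre] at hk; exact hk 0 (by omega))).1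
    have h3 : x 0 + 1 ≤ x 1 := by rw [hxn, hxn]; exact_mod_cast h2
    linarith
  have hxhalf : ∀ k, Pre k → ∀ i, i ≤ k + 1 → Y / 2 ≤ x i := by
    intro k hk i hi
    have h1 := hmono k hk 0 i (by omega) hi
    linarith
  -- the size of the value
  have hval : ∀ k, Pre k → |L t ξ (v k)| ≤ K * x (k + 1) ^ (-w) := by
    intro k hk
    have hkk : (n k : ℝ) ≤ Y ^ κ := by rw [hPre] at hk; exact hk k le_rfl
    obtain ⟨s1, s2, s3, s4⟩ := hstep k hkk
    have hY' := hxY k hk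
    rw [← hxn] at s2
    obtain ⟨X, hX⟩ : ∃ X : ℝ, X = max Y (x (k + 1) - 1) := ⟨_, rfl⟩
    have hX1 : Y ≤ X := by rw [hX]; exact le_max_left _ _
    have hX2 : x (k + 1) - 1 ≤ X := by rw [hX]; exact le_max_right _ _
    have hX3 : X < x (k + 1) := by rw [hX]; exact max_lt hY' (by linarith)
    have h1 := s4 (n (k + 1) - 1) (by omega)
    have h2 := hgU (n (k + 1) - 1) X hX1 (by linarith) (by
      rw [Nat.cast_sub (by omega), ← hxn]; push_cast; linarith)
    rw [hvg]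
    refine (h1.trans h2).trans ?_
    have h6 : x (k + 1) / 2 ≤ X := by linarith
    have h7 : X ^ (-w) ≤ (x (k + 1) / 2) ^ (-w) :=
      Real.rpow_le_rpow_of_nonpos (by linarith) h6 (by linarith)
    refine h7.trans (le_of_eq ?_)
    rw [Real.div_rpow (by linarith) (by norm_num), hK, Real.rpow_neg (by norm_num : (0:ℝ) ≤ 2)]
    field_simp
  have hnp : ∀ k, Pre k → ¬ Par (v k) (v (k + 1)) := by
    intro k hk hp
    have hkk : (n k : ℝ) ≤ Y ^ κ := by rw [hPre] at hk; exact hk k le_rfl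
    obtain ⟨s1, s2, s3, s4⟩ := hstep k hkk
    have h1 := par_ht t ξ _ _ hp s3
    have h2 : ht (v (k + 1)) ≤ n k := h1.trans (by rw [hvn]; exact hVh (n k))
    have h3 := hVmin (n k) (v (k + 1)) (by rw [hvn]; exact hV0 _) h2
    rw [← hvn] at h3
    linarith
  have hSle : ∀ k, Pre k → S t ξ (v k) (v (k + 1)) ≤ 2 * K * x (k + 1) ^ (1 - w) := by
    intro k hk
    have hkk : (n k : ℝ) ≤ Y ^ κ := by rw [hPre] at hk; exact hk k le_rfl
    obtain ⟨s1, s2, s3, s4⟩ := hstep k hkk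
    have h0 := hxY k hk
    have h00 : x k ≤ x (k + 1) := hmono k hk k (k + 1) (by omega) le_rfl
    have e : x (k + 1) * x (k + 1) ^ (-w) = x (k + 1) ^ (1 - w) := by
      nth_rewrite 1 [← Real.rpow_one (x (k + 1))]
      rw [← Real.rpow_add (by linarith)]; congr 1
    unfold S
    have a1 : (ht (v (k + 1)) : ℝ) * |L t ξ (v k)| ≤ x (k + 1) * (K * x (k + 1) ^ (-w)) :=
      mul_le_mul (hvx (k + 1)) (hval k hk) (abs_nonneg _) (by linarith)
    have a2 : (ht (v k) : ℝ) * |L t ξ (v (k + 1))| ≤ x (k + 1) * (K * x (k + 1) ^ (-w)) :=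
      mul_le_mul ((hvx k).trans h00) (s3.le.trans (hval k hk)) (abs_nonneg _) (by linarith)
    have e2 : x (k + 1) * (K * x (k + 1) ^ (-w)) = K * x (k + 1) ^ (1 - w) := by rw [← e]; ring
    rw [e2] at a1 a2
    linarith
  have hq : ∀ k, Pre k → q (v k) (v (k + 1)) ≠ 0 := fun k hk =>
    q_ne t ξ _ _ (hnp k hk) ((hSle k hk).trans_lt (hB2 _ (hYB2.trans (hxY k hk).le)))
  -- logarithms
  obtain ⟨y, hy⟩ : ∃ y : ℝ, y = Real.log Y := ⟨_, rfl⟩
  obtain ⟨a, ha⟩ : ∃ a : ℕ → ℝ, a = fun k => Real.log (x k) := ⟨_, rfl⟩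
  have hak : ∀ k, a k = Real.log (x k) := fun k => by rw [ha]
  have hBy : ∀ k, Pre k → ∀ i, i ≤ k + 1 → B ≤ a i := by
    intro k hk i hi
    have h1 := hxhalf k hk i hi
    rw [hak, Real.le_log_iff_exp_le (by linarith)]
    linarith
  have hByY : B ≤ y := by
    rw [hy, Real.le_log_iff_exp_le (by linarith)]
    linarith [Real.exp_pos B]
  -- the inequality of pairs
  have hpair : ∀ k, Pre k → ∀ (a' b' : ℤ), a' ≠ 0 → b' * q (v k) (v (k + 1)) =
      p (v k) (v (k + 1)) * a' → ∀ l : ℝ, |(a' : ℝ)| ≤ 2 * Real.exp l →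
      (w - 1) * a (k + 1) ≤ ω * l + A1 := by
    intro k hk a' b' ha' hab l hl
    have hx1 := hxY k hk
    have h1 := ratio t c ω hω hc a' b' _ _ ha' (hq k hk) hab
    rw [qp t ξ] at h1
    have h2 : |(a' : ℝ)| ^ ω ≤ 2 ^ ω * Real.exp (ω * l) := by
      refine (Real.rpow_le_rpow (abs_nonneg _) hl (by linarith)).trans (le_of_eq ?_)
      rw [Real.mul_rpow (by norm_num) (Real.exp_pos _).le, ← Real.exp_mul, mul_comm l]
    have h3 := h1.trans (mul_le_mul h2 ((S_c t ξ _ _).trans (hSle k hk)) (abs_nonneg _)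
      (by positivity))
    have h4 := Real.log_le_log hc0 h3
    have e1 : Real.log (2 ^ ω * Real.exp (ω * l) * (2 * K * x (k + 1) ^ (1 - w))) =
        Real.log (2 ^ ω * (2 * K)) + ω * l + (1 - w) * a (k + 1) := by
      have hxp : 0 < x (k + 1) := by linarith
      have e2 : 2 ^ ω * Real.exp (ω * l) * (2 * K * x (k + 1) ^ (1 - w)) =
        (2 ^ ω * (2 * K)) * Real.exp (ω * l) * x (k + 1) ^ (1 - w) := by ring
      have hp1 : (2 : ℝ) ^ ω * (2 * K) ≠ 0 := by positivity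
      have hp2 : (2 : ℝ) ^ ω * (2 * K) * Real.exp (ω * l) ≠ 0 := by positivity
      have hp3 : x (k + 1) ^ (1 - w) ≠ 0 := by positivity
      rw [e2, Real.log_mul hp2 hp3, Real.log_mul hp1 (Real.exp_pos _).ne', Real.log_exp,
        Real.log_rpow hxp, ← hak]
    rw [e1] at h4
    have h5 := le_abs_self (Real.log (2 ^ ω * (2 * K)) - Real.log c)
    rw [← hA1] at h5
    linarith
  have hqa : ∀ k, Pre k → |(q (v k) (v (k + 1)) : ℝ)| ≤ 2 * Real.exp (a k + a (k + 1)) := by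
    intro k hk
    have h1 := hxhalf k hk k (by omega)
    have h2 := hxY k hk
    rw [Real.exp_add, hak, hak, Real.exp_log (by linarith), Real.exp_log (by linarith)]
    refine (q_le _ _).trans ?_
    have := mul_le_mul (hvx k) (hvx (k + 1)) (Nat.cast_nonneg _) (by linarith)
    linarith
  -- first inequality
  have I1 : ∀ k, Pre k → δ * a (k + 1) ≤ ω * a k + A1 := by
    intro k hk
    have h1 := hpair k hk (q (v k) (v (k + 1))) (p (v k) (v (k + 1))) (hq k hk) rfl _ (hqa k hk)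
    rw [hδ]
    linarith
  -- second inequality
  have I2 : ∀ k, Pre (k + 1) → det3 (v k) (v (k + 1)) (v (k + 2)) ≠ 0 →
      (w - 1) * a (k + 1) ≤ a (k + 2) + A2 := by
    intro k hk hdet
    have hk' : Pre k := by rw [hPre] at hk ⊢; exact fun i hi => hk i (by omega)
    have hx1 := hxY k hk'
    have hx2 := hxY (k + 1) hk
    have hx1' : 0 < x (k + 1) := by linarith
    have hx2' : 0 < x (k + 2) := by
      rw [show k + 2 = k + 1 + 1 by ring]; linarith
    have h1 : (1 : ℝ) ≤ |(det3 (v k) (v (k + 1)) (v (k + 2)) : ℝ)| := by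
      have : 1 ≤ |det3 (v k) (v (k + 1)) (v (k + 2))| := Int.one_le_abs hdet
      exact_mod_cast this
    rw [det_eq t ξ] at h1
    obtain ⟨l, hl⟩ : ∃ l : ℝ, l = |L t ξ (v k)| := ⟨_, rfl⟩
    have hl0 : 0 ≤ l := by rw [hl]; exact abs_nonneg _
    have hkk : (n k : ℝ) ≤ Y ^ κ := by rw [hPre] at hk; exact hk k (by omega)
    have hkk1 : (n (k + 1) : ℝ) ≤ Y ^ κ := by rw [hPre] at hk; exact hk (k + 1) le_rfl
    have hl1 : |L t ξ (v (k + 1))| ≤ l := by rw [hl]; exact (hstep k hkk).2.2.1.le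
    have hl2 : |L t ξ (v (k + 2))| ≤ l := ((hstep (k + 1) hkk1).2.2.1.le).trans hl1
    have hQ : ∀ i j : ℕ, i ≤ k + 2 → j ≤ k + 1 →
        |(q (v j) (v i) : ℝ)| ≤ 2 * (x (k + 1) * x (k + 2)) := by
      intro i j hi hj
      refine (q_le _ _).trans ?_
      have h2 := mul_le_mul ((hvx j).trans (hmono (k + 1) hk j (k + 1) hj (by omega)))
        ((hvx i).trans (hmono (k + 1) hk i (k + 2) hi (by omega))) (Nat.cast_nonneg _) hx1'.le
      linarith
    have h2 : |L t ξ (v k) * q (v (k + 1)) (v (k + 2)) - L t ξ (v (k + 1)) * q (v k) (v (k + 2)) +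
        L t ξ (v (k + 2)) * q (v k) (v (k + 1))| ≤ 3 * (l * (2 * (x (k + 1) * x (k + 2)))) := by
      refine (abs_add_le _ _).trans ?_
      have b1 := abs_sub (L t ξ (v k) * (q (v (k + 1)) (v (k + 2)) : ℝ))
        (L t ξ (v (k + 1)) * (q (v k) (v (k + 2)) : ℝ))
      rw [abs_mul, abs_mul] at b1
      rw [abs_mul (L t ξ (v (k + 2)))]
      have c1 := mul_le_mul (le_of_eq hl.symm) (hQ (k + 2) (k + 1) le_rfl le_rfl) (abs_nonneg _) hl0
      have c2 := mul_le_mul hl1 (hQ (k + 2) k le_rfl (by omega)) (abs_nonneg _) hl0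
      have c3 := mul_le_mul hl2 (hQ (k + 1) k (by omega) (by omega)) (abs_nonneg _) hl0
      linarith
    have h3 : l ≤ K * x (k + 1) ^ (-w) := by rw [hl]; exact hval k hk'
    have h4 : (1 : ℝ) ≤ 6 * K * (x (k + 1) ^ (1 - w) * x (k + 2)) := by
      refine (h1.trans h2).trans ?_
      have e : 6 * K * (x (k + 1) ^ (1 - w) * x (k + 2)) =
          3 * (K * x (k + 1) ^ (-w) * (2 * (x (k + 1) * x (k + 2)))) := by
        have : x (k + 1) ^ (1 - w) = x (k + 1) * x (k + 1) ^ (-w) := by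
          rw [show 1 - w = 1 + -w by ring, Real.rpow_add hx1', Real.rpow_one]
        rw [this]; ring
      rw [e]
      have := mul_le_mul_of_nonneg_right h3 (show 0 ≤ 2 * (x (k + 1) * x (k + 2)) by positivity)
      linarith
    have h5 := Real.log_le_log one_pos h4
    have e6 : Real.log (6 * K * (x (k + 1) ^ (1 - w) * x (k + 2))) =
        Real.log (6 * K) + ((1 - w) * a (k + 1) + a (k + 2)) := by
      rw [Real.log_mul (show 6 * K ≠ 0 by positivity) (by positivity),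
        Real.log_mul (show x (k + 1) ^ (1 - w) ≠ 0 by positivity) hx2'.ne', Real.log_rpow hx1',
        ← hak, ← hak]
    rw [Real.log_one, e6] at h5
    have h6 := le_abs_self (Real.log (6 * K))
    rw [← hA2] at h6
    linarith
  -- three consecutive points are dependent
  have hdep : ∀ k, Pre (k + 1) → det3 (v k) (v (k + 1)) (v (k + 2)) = 0 := by
    intro k hk
    by_contra hdet
    have J2 := I2 k hk hdet
    have J1 := I1 (k + 1) hk
    rw [show k + 1 + 1 = k + 2 by ring] at J1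
    have J3 : δ * ((w - 1) * a (k + 1)) ≤ δ * (a (k + 2) + A2) :=
      mul_le_mul_of_nonneg_left J2 hδ0.le
    have J4 : γ1 * a (k + 1) ≤ A1 + δ * A2 := by
      have e1 : γ1 * a (k + 1) = δ * ((w - 1) * a (k + 1)) - ω * a (k + 1) := by
        rw [hγ1]; ring
      have e2 : δ * (a (k + 2) + A2) = δ * a (k + 2) + δ * A2 := by ring
      rw [e1]
      linarith
    have J5 := hBy (k + 1) hk (k + 1) (by omega)
    have J6 : a (k + 1) ≤ (A1 + δ * A2) / γ1 := by
      rw [le_div_iff₀ hγ10]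
      linarith
    have J7 : 0 ≤ A1 / γ2 := by positivity
    have J8 : 0 ≤ A1 / γ3 := by positivity
    rw [hB] at J5
    linarith
  have hratio : ∀ k, Pre k → p (v 0) (v 1) * q (v k) (v (k + 1)) =
      p (v k) (v (k + 1)) * q (v 0) (v 1) := by
    intro k
    induction k with
    | zero => intro _; ring
    | succ k ih =>
      intro hk
      have hk' : Pre k := by rw [hPre] at hk ⊢; exact fun i hi => hk i (by omega)
      have h1 := pq_det (v k) (v (k + 1)) (v (k + 2))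
      rw [hdep k hk, mul_zero, neg_zero] at h1
      have h2 := ih hk'
      rw [show k + 1 + 1 = k + 2 by ring]
      apply mul_left_cancel₀ (hq k hk')
      linear_combination q (v (k + 1)) (v (k + 2)) * h2 + q (v 0) (v 1) * h1
  -- the induction
  have hall : ∀ k, Pre k := by
    intro k
    induction k with
    | zero =>
      rw [hPre]
      intro i hi
      have : i = 0 := by omega
      rw [this, ← hxn]
      linarith
    | succ k ih =>
      have hstepk : (n (k + 1) : ℝ) ≤ Y ^ κ := by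
        have hxk := hxY k ih
        have hpos : 0 < x (k + 1) := by linarith
        rw [← hxn, ← Real.log_le_log_iff hpos (by positivity), Real.log_rpow hY0, ← hak, ← hy]
        have ha0 : a 0 ≤ y := by
          rw [hak, hy]
          exact Real.log_le_log (by linarith) hx0Y
        have h0 : Pre 0 := by rw [hPre] at ih ⊢; exact fun i hi => ih i (by omega)
        have J1 := I1 0 h0
        rw [zero_add] at J1
        have J6 : 0 ≤ (A1 + δ * A2) / γ1 := by positivity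
        have J7 : 0 ≤ A1 / γ2 := by positivity
        have J8 : 0 ≤ A1 / γ3 := by positivity
        have ha1 : a 1 ≤ κ * y := by
          have h1 : A1 / γ2 ≤ y := by rw [hB] at hByY; linarith
          rw [div_le_iff₀ hγ20, hγ2] at h1
          have h2 : δ * a 1 ≤ δ * (κ * y) := by nlinarith
          exact le_of_mul_le_mul_left h2 hδ0
        rcases Nat.eq_zero_or_pos k with hk0 | hk0
        · rw [hk0, zero_add]; exact ha1
        · have h1 := hpair k ih (q (v 0) (v 1)) (p (v 0) (v 1)) (hq 0 h0) (hratio k ih)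
            (a 0 + a 1) (hqa 0 h0)
          have h2 : A1 / γ3 ≤ y := by rw [hB] at hByY; linarith
          rw [div_le_iff₀ hγ30, hγ3] at h2
          have h3 : ω * (a 0 + a 1) ≤ ω * (y + κ * y) :=
            mul_le_mul_of_nonneg_left (by linarith) (by linarith)
          have h4 : (w - 1) * a (k + 1) ≤ (w - 1) * (κ * y) := by nlinarith
          exact le_of_mul_le_mul_left h4 (by linarith)
      rw [hPre] at ih ⊢
      intro i hi
      rcases Nat.lt_or_ge i (k + 1) with h | h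
      · exact ih i (by omega)
      · have : i = k + 1 := by omega
        rw [this]; exact hstepk
  -- the contradiction
  have hgrow : ∀ k, k ≤ n k := by
    intro k
    induction k with
    | zero => omega
    | succ k ih =>
      have h1 := hall k
      rw [hPre] at h1
      have := (hstep k (h1 k le_rfl)).1
      omega
  obtain ⟨k, hk⟩ := exists_nat_gt (Y ^ κ)
  have h1 := hall k
  rw [hPre] at h1
  have h2 : (k : ℝ) ≤ n k := by exact_mod_cast hgrow k
  linarith [h1 k le_rfl]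

end Pool.Agent.N909.NR
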